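import Pool.Agent.H50.SQ.GVN0

/-!
# Generalised von Neumann inequality for squares with difference in a subspace
-/

namespace Pool.Agent.H50.SQ

open Finset Pool.Agent.H36Sq Pool.Agent.H81.SQ
open scoped BigOperators ComplexConjugate

section

variable {G : Type} [AddCommGroup G] [Module (ZMod 2) G] [Fintype G]

/-- Indicator of a subspace. -/
noncomputable def ind (H : Submodule (ZMod 2) G) (x : G) : ℝ :=
  open Classical in if x ∈ H then 1 else 0

omit [Fintype G] in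
theorem ind_abs_le (H : Submodule (ZMod 2) G) (x : G) : |ind H x| ≤ 1 := by
  unfold ind
  split_ifs <;> simp

theorem cardH_pos (H : Submodule (ZMod 2) G) : (0 : ℝ) < (Fintype.card H : ℝ) := by
  have : 0 < Fintype.card H := Fintype.card_pos_iff.2 ⟨0⟩
  exact_mod_cast this

omit [Module (ZMod 2) G] in
theorem cardG_pos : (0 : ℝ) < (Fintype.card G : ℝ) := by
  have : 0 < Fintype.card G := Fintype.card_pos_iff.2 ⟨0⟩
  exact_mod_cast this

theorem idx_pos (H : Submodule (ZMod 2) G) : 0 < idx H :=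
  div_pos cardG_pos (cardH_pos H)

theorem sum_ind (H : Submodule (ZMod 2) G) (g : G → ℝ) :
    ∑ d : G, ind H d * g d = ∑ d : H, g d := by
  classical
  unfold ind
  have h1 : ∀ d : G, (if d ∈ H then (1 : ℝ) else 0) * g d = if d ∈ H then g d else 0 := by
    intro d; split_ifs <;> simp
  simp only [h1]
  rw [← Finset.sum_filter]
  refine Finset.sum_bij' (fun d hd => (⟨d, by simpa using hd⟩ : H)) (fun d _ => (d : G))
    ?_ ?_ ?_ ?_ ?_
  · intro d hd; simp
  · intro d hd; simp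
  · intro d hd; simp
  · intro d hd; simp
  · intro d hd; simp

theorem expectH (H : Submodule (ZMod 2) G) (g : G → ℝ) :
    (𝔼 d : H, g d) = idx H * 𝔼 d : G, ind H d * g d := by
  have hH := (cardH_pos H).ne'
  have hG := (cardG_pos (G := G)).ne'
  rw [Fintype.expect_eq_sum_div_card, Fintype.expect_eq_sum_div_card, sum_ind, idx]
  field_simp

theorem ind_eq (H : Submodule (ZMod 2) G) (x d : G) :
    ind H d = idx H * 𝔼 c : G, ind H (x + c) * ind H (x + d + c) := by
  have h1 : (𝔼 c : G, ind H (x + c) * ind H (x + d + c)) =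
      𝔼 c : G, ind H c * ind H (d + c) := by
    rw [← trL x (fun c => ind H c * ind H (d + c))]
    refine Finset.expect_congr rfl fun c _ => ?_
    rw [show d + (x + c) = x + d + c by abel]
  rw [h1, ← expectH H (fun c => ind H (d + c))]
  have h2 : ∀ c : H, ind H (d + (c : G)) = ind H d := by
    intro c
    unfold ind
    have : d + (c : G) ∈ H ↔ d ∈ H := by
      constructor
      · intro h
        have := H.sub_mem h c.2
        simpa using this
      · intro h
        exact H.add_mem h c.2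
    by_cases hd : d ∈ H
    · rw [if_pos hd, if_pos (this.2 hd)]
    · rw [if_neg hd, if_neg (fun h => hd (this.1 h))]
  simp only [h2]
  rw [Finset.expect_const univ_nonempty]

theorem TH_eq (H : Submodule (ZMod 2) G) (f0 f1 f2 f3 : G → G → ℝ) :
    TH H f0 f1 f2 f3 = idx H ^ 2 * 𝔼 c : G, 𝔼 x, 𝔼 y, 𝔼 d,
      f0 x y * (ind H (x + d + c) * f1 (x + d) y) * (ind H (x + c) * f2 x (y + d)) *
        f3 (x + d) (y + d) := by
  unfold TH
  rw [expectH H (fun d => 𝔼 x : G, 𝔼 y : G,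
    f0 x y * f1 (x + d) y * f2 x (y + d) * f3 (x + d) (y + d))]
  have h1 : ∀ d : G, ind H d * (𝔼 x : G, 𝔼 y : G,
      f0 x y * f1 (x + d) y * f2 x (y + d) * f3 (x + d) (y + d)) =
      idx H * 𝔼 c : G, 𝔼 x, 𝔼 y,
      f0 x y * (ind H (x + d + c) * f1 (x + d) y) * (ind H (x + c) * f2 x (y + d)) *
        f3 (x + d) (y + d) := by
    intro d
    rw [Finset.mul_expect]
    simp only [Finset.mul_expect]
    rw [Finset.expect_comm (s := univ (α := G)) (t := univ (α := G))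
      (f := fun c x => 𝔼 y, idx H * (f0 x y * (ind H (x + d + c) * f1 (x + d) y) *
        (ind H (x + c) * f2 x (y + d)) * f3 (x + d) (y + d)))]
    refine Finset.expect_congr rfl fun x _ => ?_
    rw [Finset.expect_comm]
    refine Finset.expect_congr rfl fun y _ => ?_
    rw [ind_eq H x d, mul_assoc, Finset.expect_mul, Finset.mul_expect]
    refine Finset.expect_congr rfl fun c _ => ?_
    ring
  simp only [h1]
  rw [← Finset.mul_expect]
  rw [← mul_assoc, ← pow_two]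
  congr 1
  rw [Finset.expect_comm]
  refine Finset.expect_congr rfl fun c _ => ?_
  rw [Finset.expect_comm]
  refine Finset.expect_congr rfl fun x _ => ?_
  rw [Finset.expect_comm]

omit [Module (ZMod 2) G] in
theorem Lam_real (f0 f1 f2 f3 : G → G → ℝ) :
    Lam (fun x y => ((f0 x y : ℝ) : ℂ)) (fun x y => ((f1 x y : ℝ) : ℂ))
      (fun x y => ((f2 x y : ℝ) : ℂ)) (fun x y => ((f3 x y : ℝ) : ℂ)) =
    ((𝔼 x, 𝔼 y, 𝔼 d, f0 x y * f1 (x + d) y * f2 x (y + d) * f3 (x + d) (y + d) : ℝ) : ℂ) := by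
  unfold Lam
  simp only [cast_expect, Complex.ofReal_mul]

omit [Module (ZMod 2) G] in
theorem U8_nonneg (f : G → G → ℂ) : 0 ≤ U8 f := by
  unfold U8
  refine Finset.expect_nonneg fun o _ => Finset.expect_nonneg fun u _ =>
    Finset.expect_nonneg fun v _ => by positivity

theorem main0 (h0 : T_GVN0) (H : Submodule (ZMod 2) G) (f0 f1 f2 f3 : G → G → ℝ)
    (b0 : ∀ x y, |f0 x y| ≤ 1) (b1 : ∀ x y, |f1 x y| ≤ 1) (b2 : ∀ x y, |f2 x y| ≤ 1)
    (b3 : ∀ x y, |f3 x y| ≤ 1) :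
    |TH H f0 f1 f2 f3| ^ 8 ≤ idx H ^ 16 * U8 (fun x y => ((f0 x y : ℝ) : ℂ)) := by
  set U := U8 (fun x y => ((f0 x y : ℝ) : ℂ)) with hUdef
  have hU : 0 ≤ U := U8_nonneg _
  set t : ℝ := U ^ (((8 : ℕ) : ℝ)⁻¹) with ht
  have ht0 : 0 ≤ t := Real.rpow_nonneg hU _
  have ht8 : t ^ 8 = U := Real.rpow_inv_natCast_pow hU (by norm_num)
  have hL : ∀ c : G, |𝔼 x, 𝔼 y, 𝔼 d,
      f0 x y * (ind H (x + d + c) * f1 (x + d) y) * (ind H (x + c) * f2 x (y + d)) *
        f3 (x + d) (y + d)| ≤ t := by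
    intro c
    have hb : ∀ (g : G → G → ℝ), (∀ x y, |g x y| ≤ 1) →
        ∀ x y, ‖(((ind H (x + c) * g x y : ℝ)) : ℂ)‖ ≤ 1 := by
      intro g hg x y
      rw [Complex.norm_real, Real.norm_eq_abs, abs_mul]
      exact mul_le_one₀ (ind_abs_le H _) (abs_nonneg _) (hg x y)
    have hb' : ∀ (g : G → G → ℝ), (∀ x y, |g x y| ≤ 1) →
        ∀ x y, ‖((g x y : ℝ) : ℂ)‖ ≤ 1 := by
      intro g hg x y
      rw [Complex.norm_real, Real.norm_eq_abs]
      exact hg x y
    have key := h0 G (fun x y => ((f0 x y : ℝ) : ℂ))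
      (fun x y => ((ind H (x + c) * f1 x y : ℝ) : ℂ))
      (fun x y => ((ind H (x + c) * f2 x y : ℝ) : ℂ))
      (fun x y => ((f3 x y : ℝ) : ℂ)) (hb' f0 b0) (hb f1 b1) (hb f2 b2) (hb' f3 b3)
    rw [Lam_real f0 (fun x y => ind H (x + c) * f1 x y) (fun x y => ind H (x + c) * f2 x y) f3,
      Complex.norm_real, Real.norm_eq_abs, ← hUdef, ← ht8] at key
    exact (pow_le_pow_iff_left₀ (abs_nonneg _) ht0 (by norm_num)).1 key
  have hTH : |TH H f0 f1 f2 f3| ≤ idx H ^ 2 * t := by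
    rw [TH_eq, abs_mul, abs_of_nonneg (by positivity : (0 : ℝ) ≤ idx H ^ 2)]
    refine mul_le_mul_of_nonneg_left ?_ (by positivity)
    refine (Finset.abs_expect_le _ _).trans ?_
    refine (Finset.expect_le_expect fun c _ => hL c).trans (le_of_eq ?_)
    rw [Finset.expect_const univ_nonempty]
  calc |TH H f0 f1 f2 f3| ^ 8 ≤ (idx H ^ 2 * t) ^ 8 :=
        pow_le_pow_left₀ (abs_nonneg _) hTH 8
    _ = idx H ^ 16 * t ^ 8 := by ring
    _ = idx H ^ 16 * U := by rw [ht8]

theorem TH_swapx (H : Submodule (ZMod 2) G) (f0 f1 f2 f3 : G → G → ℝ) :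
    TH H f0 f1 f2 f3 = TH H f1 f0 f3 f2 := by
  unfold TH
  refine Finset.expect_congr rfl fun d _ => ?_
  rw [← trR (d : G)]
  refine Finset.expect_congr rfl fun x _ => ?_
  refine Finset.expect_congr rfl fun y _ => ?_
  simp only [dbl'']
  ring

theorem TH_swapy (H : Submodule (ZMod 2) G) (f0 f1 f2 f3 : G → G → ℝ) :
    TH H f0 f1 f2 f3 = TH H f2 f3 f0 f1 := by
  unfold TH
  refine Finset.expect_congr rfl fun d _ => ?_
  refine Finset.expect_congr rfl fun x _ => ?_
  rw [← trR (d : G)]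
  refine Finset.expect_congr rfl fun y _ => ?_
  simp only [dbl'']
  ring

end

theorem gvnh (h0 : T_GVN0) : T_GVNH := by
  intro G _ _ _ H f0 f1 f2 f3 b0 b1 b2 b3
  refine ⟨main0 h0 H f0 f1 f2 f3 b0 b1 b2 b3, ?_, ?_, ?_⟩
  · rw [TH_swapx]
    exact main0 h0 H f1 f0 f3 f2 b1 b0 b3 b2
  · rw [TH_swapy]
    exact main0 h0 H f2 f3 f0 f1 b2 b3 b0 b1
  · rw [TH_swapx, TH_swapy]
    exact main0 h0 H f3 f2 f1 f0 b3 b2 b1 b0

end Pool.Agent.H50.SQ
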