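import Pool.Agent.H50.SQ.GVNH

/-!
# Replacing a function by a structured one in the square count
-/

namespace Pool.Agent.H50.SQ

open Finset Pool.Agent.H36Sq Pool.Agent.H81.SQ
open scoped BigOperators ComplexConjugate

section

variable {G : Type} [AddCommGroup G] [Module (ZMod 2) G] [Fintype G]

theorem TH_tele (H : Submodule (ZMod 2) G) (f f' f₁ : G → G → ℝ) :
    TH H f f f f - TH H f₁ f₁ f₁ f₁ =
      (TH H (fun x y => f x y - f' x y) f f f + TH H (fun x y => f' x y - f₁ x y) f f f) +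
      (TH H f₁ (fun x y => f x y - f' x y) f f + TH H f₁ (fun x y => f' x y - f₁ x y) f f) +
      (TH H f₁ f₁ (fun x y => f x y - f' x y) f + TH H f₁ f₁ (fun x y => f' x y - f₁ x y) f) +
      (TH H f₁ f₁ f₁ (fun x y => f x y - f' x y) +
        TH H f₁ f₁ f₁ (fun x y => f' x y - f₁ x y)) := by
  unfold TH
  simp only [← Finset.expect_add_distrib, ← Finset.expect_sub_distrib]
  refine Finset.expect_congr rfl fun d _ => ?_
  refine Finset.expect_congr rfl fun x _ => ?_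
  refine Finset.expect_congr rfl fun y _ => ?_
  ring

theorem TH_l1 (H : Submodule (ZMod 2) G) (r a b c : G → G → ℝ)
    (ha : ∀ x y, |a x y| ≤ 1) (hb : ∀ x y, |b x y| ≤ 1) (hc : ∀ x y, |c x y| ≤ 1) :
    |TH H r a b c| ≤ 𝔼 x : G, 𝔼 y : G, |r x y| := by
  unfold TH
  refine (Finset.abs_expect_le _ _).trans ?_
  have h1 : ∀ d ∈ (univ : Finset H), |𝔼 x : G, 𝔼 y : G,
      r x y * a (x + d) y * b x (y + d) * c (x + d) (y + d)| ≤ 𝔼 x : G, 𝔼 y : G, |r x y| := by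
    intro d _
    refine (Finset.abs_expect_le _ _).trans ?_
    refine Finset.expect_le_expect fun x _ => ?_
    refine (Finset.abs_expect_le _ _).trans ?_
    refine Finset.expect_le_expect fun y _ => ?_
    rw [abs_mul, abs_mul, abs_mul]
    have h2 : |r x y| * |a (x + d) y| ≤ |r x y| :=
      mul_le_of_le_one_right (abs_nonneg _) (ha _ _)
    have h3 : |r x y| * |a (x + d) y| * |b x (y + d)| ≤ |r x y| * |a (x + d) y| :=
      mul_le_of_le_one_right (by positivity) (hb _ _)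
    have h4 : |r x y| * |a (x + d) y| * |b x (y + d)| * |c (x + d) (y + d)| ≤
        |r x y| * |a (x + d) y| * |b x (y + d)| :=
      mul_le_of_le_one_right (by positivity) (hc _ _)
    linarith
  refine (Finset.expect_le_expect h1).trans (le_of_eq ?_)
  rw [Finset.expect_const univ_nonempty]

omit [AddCommGroup G] [Module (ZMod 2) G] in
theorem l1_le_l2 (r : G → G → ℝ) (ε : ℝ) (hε : 0 ≤ ε)
    (h : (𝔼 x : G, 𝔼 y : G, (r x y) ^ 2) ≤ ε ^ 2) :
    (𝔼 x : G, 𝔼 y : G, |r x y|) ≤ ε := by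
  have h1 : (𝔼 p : G × G, |r p.1 p.2|) ^ 2 ≤ 𝔼 p : G × G, (r p.1 p.2) ^ 2 := by
    rcases isEmpty_or_nonempty G with hI | hI
    · simp [Finset.univ_eq_empty]
    have := Finset.expect_mul_sq_le_sq_mul_sq (univ : Finset (G × G))
      (fun i => |r i.1 i.2|) (fun _ => (1 : ℝ))
    simpa [Finset.expect_const] using this
  rw [expect_pair_real, expect_pair_real] at h1
  have h2 : (𝔼 x : G, 𝔼 y : G, |r x y|) ^ 2 ≤ ε ^ 2 := h1.trans h
  exact abs_le_of_sq_le_sq' h2 hε |>.2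

theorem term (h : T_GVNH) (H : Submodule (ZMod 2) G) (g r a b c : G → G → ℝ) (ε₁ ε₂ : ℝ)
    (hε₁ : 0 ≤ ε₁) (hε₂ : 0 ≤ ε₂) (hg : ∀ x y, |g x y| ≤ 1)
    (ha : ∀ x y, |a x y| ≤ 1) (hb : ∀ x y, |b x y| ≤ 1) (hc : ∀ x y, |c x y| ≤ 1)
    (hr : (𝔼 x : G, 𝔼 y : G, (r x y) ^ 2) ≤ ε₁ ^ 2)
    (hU : idx H ^ 16 * U8 (fun x y => ((g x y : ℝ) : ℂ)) ≤ ε₂ ^ 8) :
    |TH H g a b c + TH H r a b c| ≤ ε₁ + ε₂ := by
  have h1 : |TH H g a b c| ^ 8 ≤ ε₂ ^ 8 := ((h G H g a b c hg ha hb hc).1).trans hU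
  have h2 : |TH H g a b c| ≤ ε₂ := (pow_le_pow_iff_left₀ (abs_nonneg _) hε₂ (by norm_num)).1 h1
  have h3 : |TH H r a b c| ≤ ε₁ := (TH_l1 H r a b c ha hb hc).trans (l1_le_l2 r ε₁ hε₁ hr)
  have h4 := abs_add_le (TH H g a b c) (TH H r a b c)
  linarith

end

theorem repl (h : T_GVNH) : T_REPL := by
  intro G _ _ _ H f f' f₁ ε₁ ε₂ hε₁ hε₂ hf hf' hf₁ hr hU
  have bf : ∀ x y, |f x y| ≤ 1 := fun x y => by
    rw [abs_of_nonneg (hf x y).1]; exact (hf x y).2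
  have bf₁ : ∀ x y, |f₁ x y| ≤ 1 := fun x y => by
    rw [abs_of_nonneg (hf₁ x y).1]; exact (hf₁ x y).2
  have bg : ∀ x y, |(fun x y => f x y - f' x y) x y| ≤ 1 := fun x y => by
    have := hf x y
    have := hf' x y
    show |f x y - f' x y| ≤ 1
    rw [abs_le]
    constructor <;> linarith
  rw [TH_tele H f f' f₁]
  have t1 := term h H (fun x y => f x y - f' x y) (fun x y => f' x y - f₁ x y) f f f ε₁ ε₂
    hε₁ hε₂ bg bf bf bf hr hU
  have t2 := term h H (fun x y => f x y - f' x y) (fun x y => f' x y - f₁ x y) f₁ f f ε₁ ε₂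
    hε₁ hε₂ bg bf₁ bf bf hr hU
  have t3 := term h H (fun x y => f x y - f' x y) (fun x y => f' x y - f₁ x y) f f₁ f₁ ε₁ ε₂
    hε₁ hε₂ bg bf bf₁ bf₁ hr hU
  have t4 := term h H (fun x y => f x y - f' x y) (fun x y => f' x y - f₁ x y) f₁ f₁ f₁ ε₁ ε₂
    hε₁ hε₂ bg bf₁ bf₁ bf₁ hr hU
  have e2 : ∀ g : G → G → ℝ, TH H f₁ g f f = TH H g f₁ f f := fun g => TH_swapx H _ _ _ _
  have e3 : ∀ g : G → G → ℝ, TH H f₁ f₁ g f = TH H g f f₁ f₁ := fun g => TH_swapy H _ _ _ _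
  have e4 : ∀ g : G → G → ℝ, TH H f₁ f₁ f₁ g = TH H g f₁ f₁ f₁ := fun g => by
    rw [TH_swapx, TH_swapy]
  rw [e2, e2, e3, e3, e4, e4]
  rw [abs_le] at t1 t2 t3 t4 ⊢
  constructor <;> linarith [t1.1, t1.2, t2.1, t2.2, t3.1, t3.2, t4.1, t4.2]

end Pool.Agent.H50.SQ
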