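import Pool.Agent.H81.SQ.Targets

/-!
# Generalised von Neumann inequality for squares: three Cauchy-Schwarz steps
-/

namespace Pool.Agent.H50.SQ

open Finset Pool.Agent.H36Sq Pool.Agent.H81.SQ
open scoped BigOperators ComplexConjugate

section Tools

variable {I J : Type} [Fintype I] [Fintype J]

theorem cs_sq (φ ψ : I → ℂ) (hφ : ∀ i, ‖φ i‖ ≤ 1) :
    ‖𝔼 i, φ i * ψ i‖ ^ 2 ≤ 𝔼 i, ‖ψ i‖ ^ 2 := by
  have h1 : ‖𝔼 i, φ i * ψ i‖ ≤ 𝔼 i, ‖ψ i‖ := by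
    refine (RCLike.norm_expect_le (K := ℂ)).trans ?_
    refine Finset.expect_le_expect fun i _ => ?_
    rw [norm_mul]
    exact mul_le_of_le_one_left (norm_nonneg _) (hφ i)
  have h2 : (𝔼 i, ‖ψ i‖) ^ 2 ≤ 𝔼 i, ‖ψ i‖ ^ 2 := by
    rcases isEmpty_or_nonempty I with hI | hI
    · simp [Finset.univ_eq_empty]
    have := Finset.expect_mul_sq_le_sq_mul_sq (univ : Finset I) (fun i => ‖ψ i‖) (fun _ => (1 : ℝ))
    simpa [Finset.expect_const] using this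
  exact (pow_le_pow_left₀ (norm_nonneg _) h1 2).trans h2

theorem norm_sq_expect (g : J → ℂ) :
    ((‖𝔼 j, g j‖ ^ 2 : ℝ) : ℂ) = 𝔼 j, 𝔼 j', g j * conj (g j') := by
  have h : ((‖𝔼 j, g j‖ ^ 2 : ℝ) : ℂ) = (𝔼 j, g j) * conj (𝔼 j, g j) := by
    rw [Complex.mul_conj, Complex.normSq_eq_norm_sq]
  rw [h, map_expect, Finset.expect_mul]
  refine Finset.expect_congr rfl fun j _ => ?_
  rw [Finset.mul_expect]

theorem cast_expect (g : I → ℝ) : ((𝔼 i, g i : ℝ) : ℂ) = 𝔼 i, ((g i : ℝ) : ℂ) := by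
  exact map_expect Complex.ofRealHom g univ

theorem expect_norm_sq (F : I → J → ℂ) :
    ((𝔼 i, ‖𝔼 j, F i j‖ ^ 2 : ℝ) : ℂ) = 𝔼 i, 𝔼 j, 𝔼 j', F i j * conj (F i j') := by
  rw [cast_expect]
  refine Finset.expect_congr rfl fun i _ => ?_
  rw [norm_sq_expect]

theorem cs_two (φ : I → ℂ) (F : I → J → ℂ) (hφ : ∀ i, ‖φ i‖ ≤ 1) :
    ‖𝔼 i, 𝔼 j, φ i * F i j‖ ^ 2 ≤ 𝔼 i, ‖𝔼 j, F i j‖ ^ 2 := by
  have : (𝔼 i, 𝔼 j, φ i * F i j) = 𝔼 i, φ i * 𝔼 j, F i j := by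
    refine Finset.expect_congr rfl fun i _ => ?_
    rw [Finset.mul_expect]
  rw [this]
  exact cs_sq _ _ hφ

theorem cs_norm (φ : I → ℂ) (F : I → J → ℂ) (hφ : ∀ i, ‖φ i‖ ≤ 1) :
    ‖𝔼 i, 𝔼 j, φ i * F i j‖ ^ 2 ≤ ‖𝔼 i, 𝔼 j, 𝔼 j', F i j * conj (F i j')‖ := by
  rw [← expect_norm_sq, Complex.norm_real]
  exact (cs_two φ F hφ).trans (le_abs_self _)

theorem expect_pair (F : I × J → ℂ) : 𝔼 p, F p = 𝔼 a, 𝔼 b, F (a, b) := by
  rw [← Finset.univ_product_univ, Finset.expect_product]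

theorem expect_pair_real (F : I × J → ℝ) : 𝔼 p, F p = 𝔼 a, 𝔼 b, F (a, b) := by
  rw [← Finset.univ_product_univ, Finset.expect_product]

end Tools

section Group

variable {G : Type} [AddCommGroup G] [Module (ZMod 2) G] [Fintype G]

omit [Fintype G] in
theorem dbl (x : G) : x + x = 0 := ZModModule.add_self x

omit [Fintype G] in
theorem dbl' (x y : G) : x + (x + y) = y := by
  rw [← add_assoc, dbl, zero_add]

omit [Fintype G] in
theorem dbl'' (x y : G) : x + y + y = x := by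
  rw [add_assoc, dbl, add_zero]

omit [Module (ZMod 2) G] in
theorem trL {M : Type} [AddCommMonoid M] [Module ℚ≥0 M] (b : G) (g : G → M) :
    𝔼 x, g (b + x) = 𝔼 x, g x :=
  Fintype.expect_equiv (Equiv.addLeft b) _ _ fun _ => rfl

omit [Module (ZMod 2) G] in
theorem trR {M : Type} [AddCommMonoid M] [Module ℚ≥0 M] (b : G) (g : G → M) :
    𝔼 x, g (x + b) = 𝔼 x, g x :=
  Fintype.expect_equiv (Equiv.addRight b) _ _ fun _ => rfl

omit [Module (ZMod 2) G] in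
theorem trR4 (b : G) (g : G → G → G → G → ℂ) :
    𝔼 x, 𝔼 y, 𝔼 z, 𝔼 t, g (x + b) (y + b) (z + b) (t + b) = 𝔼 x, 𝔼 y, 𝔼 z, 𝔼 t, g x y z t := by
  rw [trR b (fun x => 𝔼 y, 𝔼 z, 𝔼 t, g x (y + b) (z + b) (t + b))]
  refine Finset.expect_congr rfl fun x _ => ?_
  rw [trR b (fun y => 𝔼 z, 𝔼 t, g x y (z + b) (t + b))]
  refine Finset.expect_congr rfl fun y _ => ?_
  rw [trR b (fun z => 𝔼 t, g x y z (t + b))]
  refine Finset.expect_congr rfl fun z _ => ?_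
  rw [trR b (fun t => g x y z t)]

omit [AddCommGroup G] [Module (ZMod 2) G] in
theorem move4 (F : G → G → G → G → G → ℂ) :
    𝔼 b, 𝔼 x, 𝔼 y, 𝔼 z, 𝔼 t, F b x y z t = 𝔼 x, 𝔼 y, 𝔼 z, 𝔼 t, 𝔼 b, F b x y z t := by
  rw [Finset.expect_comm]
  refine Finset.expect_congr rfl fun x _ => ?_
  rw [Finset.expect_comm]
  refine Finset.expect_congr rfl fun y _ => ?_
  rw [Finset.expect_comm]
  refine Finset.expect_congr rfl fun z _ => ?_
  rw [Finset.expect_comm]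

omit [AddCommGroup G] [Module (ZMod 2) G] in
theorem move2 (F : G → G → G → ℂ) :
    𝔼 b, 𝔼 x, 𝔼 y, F b x y = 𝔼 x, 𝔼 y, 𝔼 b, F b x y := by
  rw [Finset.expect_comm]
  refine Finset.expect_congr rfl fun x _ => ?_
  rw [Finset.expect_comm]

omit [AddCommGroup G] [Module (ZMod 2) G] in
theorem move3 (F : G → G → G → G → ℂ) :
    𝔼 b, 𝔼 x, 𝔼 y, 𝔼 z, F b x y z = 𝔼 x, 𝔼 y, 𝔼 z, 𝔼 b, F b x y z := by
  rw [Finset.expect_comm]
  refine Finset.expect_congr rfl fun x _ => ?_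
  rw [Finset.expect_comm]
  refine Finset.expect_congr rfl fun y _ => ?_
  rw [Finset.expect_comm]

theorem norm_mul_le_one {z w : ℂ} (hz : ‖z‖ ≤ 1) (hw : ‖w‖ ≤ 1) : ‖z * w‖ ≤ 1 := by
  rw [norm_mul]
  exact mul_le_one₀ hz (norm_nonneg _) hw

theorem norm_conj_le_one {z : ℂ} (hz : ‖z‖ ≤ 1) : ‖conj z‖ ≤ 1 := by
  rwa [RCLike.norm_conj]

variable (f0 f1 f2 f3 : G → G → ℂ)

/-- Step 0. -/
theorem step0 : Lam f0 f1 f2 f3 =
    𝔼 p : G × G, 𝔼 x, f1 p.2 p.1 *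
      (f0 x p.1 * f2 x (p.1 + (x + p.2)) * f3 p.2 (p.1 + (x + p.2))) := by
  rw [expect_pair]
  unfold Lam
  have h1 : ∀ x y, (𝔼 d, f0 x y * f1 (x + d) y * f2 x (y + d) * f3 (x + d) (y + d)) =
      𝔼 a, f1 a y * (f0 x y * f2 x (y + (x + a)) * f3 a (y + (x + a))) := by
    intro x y
    rw [← trL x]
    refine Finset.expect_congr rfl fun a _ => ?_
    rw [dbl']
    ring
  simp only [h1]
  rw [move2]

/-- Step 1. -/
theorem step1 (h1 : ∀ x y, ‖f1 x y‖ ≤ 1) :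
    ‖Lam f0 f1 f2 f3‖ ^ 2 ≤ ‖𝔼 i : G × G × G, 𝔼 y,
      (f2 i.2.1 (i.2.1 + i.1) * conj (f2 i.2.2 (i.2.2 + i.1))) *
      (f0 i.2.1 y * conj (f0 i.2.2 y) * f3 (y + i.1) (i.2.1 + i.1) *
        conj (f3 (y + i.1) (i.2.2 + i.1)))‖ := by
  rw [step0]
  refine (cs_norm _ _ fun p => h1 _ _).trans (le_of_eq ?_)
  congr 1
  rw [expect_pair, expect_pair]
  simp only [expect_pair]
  -- left: `𝔼 y, 𝔼 a, 𝔼 x, 𝔼 x'`; substitute `a = y + b`
  have e1 : ∀ y : G, (𝔼 a, 𝔼 x, 𝔼 x', (f0 x y * f2 x (y + (x + a)) * f3 a (y + (x + a))) *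
      conj (f0 x' y * f2 x' (y + (x' + a)) * f3 a (y + (x' + a)))) =
      𝔼 b, 𝔼 x, 𝔼 x', (f2 x (x + b) * conj (f2 x' (x' + b))) *
      (f0 x y * conj (f0 x' y) * f3 (y + b) (x + b) *
        conj (f3 (y + b) (x' + b))) := by
    intro y
    rw [← trL y]
    refine Finset.expect_congr rfl fun b _ => ?_
    refine Finset.expect_congr rfl fun x _ => ?_
    refine Finset.expect_congr rfl fun x' _ => ?_
    have e : ∀ x : G, y + (x + (y + b)) = x + b := by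
      intro x
      rw [add_left_comm x y b, dbl']
    rw [e, e]
    simp only [map_mul]
    ring
  simp only [e1]
  rw [move3]

/-- Step 2. -/
theorem step2 (h2 : ∀ x y, ‖f2 x y‖ ≤ 1) :
    ‖𝔼 i : G × G × G, 𝔼 y,
      (f2 i.2.1 (i.2.1 + i.1) * conj (f2 i.2.2 (i.2.2 + i.1))) *
      (f0 i.2.1 y * conj (f0 i.2.2 y) * f3 (y + i.1) (i.2.1 + i.1) *
        conj (f3 (y + i.1) (i.2.2 + i.1)))‖ ^ 2 ≤
    ‖𝔼 i : G × G × G × G, 𝔼 b,
      (f3 i.2.2.1 i.1 * conj (f3 i.2.2.1 i.2.1) * conj (f3 i.2.2.2 i.1) * f3 i.2.2.2 i.2.1) *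
      (f0 (i.1 + b) (i.2.2.1 + b) * conj (f0 (i.2.1 + b) (i.2.2.1 + b)) *
        conj (f0 (i.1 + b) (i.2.2.2 + b)) * f0 (i.2.1 + b) (i.2.2.2 + b))‖ := by
  refine (cs_norm _ _ fun p => norm_mul_le_one (h2 _ _) (norm_conj_le_one (h2 _ _))).trans
    (le_of_eq ?_)
  congr 1
  simp only [expect_pair]
  refine Eq.trans ?_ (move4 (fun b x x' u v =>
      (f3 u x * conj (f3 u x') * conj (f3 v x) * f3 v x') *
      (f0 (x + b) (u + b) * conj (f0 (x' + b) (u + b)) *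
        conj (f0 (x + b) (v + b)) * f0 (x' + b) (v + b))))
  refine Finset.expect_congr rfl fun b _ => ?_
  rw [← trR4 b (fun x x' y y' => f0 x y * conj (f0 x' y) * f3 (y + b) (x + b) *
    conj (f3 (y + b) (x' + b)) * conj (f0 x y' * conj (f0 x' y') * f3 (y' + b) (x + b) *
    conj (f3 (y' + b) (x' + b))))]
  refine Finset.expect_congr rfl fun x _ => ?_
  refine Finset.expect_congr rfl fun x' _ => ?_
  refine Finset.expect_congr rfl fun y _ => ?_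
  refine Finset.expect_congr rfl fun y' _ => ?_
  simp only [dbl'', map_mul, Complex.conj_conj]
  ring

/-- The eightfold product. -/
noncomputable def Q8 (f : G → G → ℂ) (x x' u v o : G) : ℂ :=
  f x u * conj (f (x + o) (u + o)) * conj (f x v) * f (x + o) (v + o) *
    conj (f x' u * conj (f (x' + o) (u + o)) * conj (f x' v) * f (x' + o) (v + o))

omit [Module (ZMod 2) G] in
theorem U8_eq (f : G → G → ℂ) :
    ((U8 f : ℝ) : ℂ) = 𝔼 x, 𝔼 x', 𝔼 u, 𝔼 v, 𝔼 o, Q8 f x x' u v o := by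
  unfold U8
  have e1 : ∀ o u v : G, ((‖𝔼 x : G, f x u * conj (f (x + o) (u + o)) * conj (f x v) *
      f (x + o) (v + o)‖ ^ 2 : ℝ) : ℂ) = 𝔼 x, 𝔼 x', Q8 f x x' u v o := by
    intro o u v
    rw [norm_sq_expect]
    rfl
  rw [cast_expect]
  simp only [cast_expect, e1]
  -- `𝔼 o, 𝔼 u, 𝔼 v, 𝔼 x, 𝔼 x'`
  rw [move4]
  -- `𝔼 u, 𝔼 v, 𝔼 x, 𝔼 x', 𝔼 o`
  rw [move3 (fun u v x x' => 𝔼 o, Q8 f x x' u v o)]
  rw [move3 (fun v x x' u => 𝔼 o, Q8 f x x' u v o)]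

omit [Module (ZMod 2) G] in
/-- Step 3. -/
theorem step3 (h3 : ∀ x y, ‖f3 x y‖ ≤ 1) :
    ‖𝔼 i : G × G × G × G, 𝔼 b,
      (f3 i.2.2.1 i.1 * conj (f3 i.2.2.1 i.2.1) * conj (f3 i.2.2.2 i.1) * f3 i.2.2.2 i.2.1) *
      (f0 (i.1 + b) (i.2.2.1 + b) * conj (f0 (i.2.1 + b) (i.2.2.1 + b)) *
        conj (f0 (i.1 + b) (i.2.2.2 + b)) * f0 (i.2.1 + b) (i.2.2.2 + b))‖ ^ 2 ≤ U8 f0 := by
  have hU : (0 : ℝ) ≤ U8 f0 := by
    unfold U8
    refine Finset.expect_nonneg fun o _ => Finset.expect_nonneg fun u _ =>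
      Finset.expect_nonneg fun v _ => by positivity
  refine (cs_norm _ _ fun p => norm_mul_le_one (norm_mul_le_one (norm_mul_le_one (h3 _ _)
    (norm_conj_le_one (h3 _ _))) (norm_conj_le_one (h3 _ _))) (h3 _ _)).trans (le_of_eq ?_)
  have key : (𝔼 i : G × G × G × G, 𝔼 b, 𝔼 b',
      (f0 (i.1 + b) (i.2.2.1 + b) * conj (f0 (i.2.1 + b) (i.2.2.1 + b)) *
        conj (f0 (i.1 + b) (i.2.2.2 + b)) * f0 (i.2.1 + b) (i.2.2.2 + b)) *
      conj (f0 (i.1 + b') (i.2.2.1 + b') * conj (f0 (i.2.1 + b') (i.2.2.1 + b')) *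
        conj (f0 (i.1 + b') (i.2.2.2 + b')) * f0 (i.2.1 + b') (i.2.2.2 + b'))) =
      ((U8 f0 : ℝ) : ℂ) := by
    rw [U8_eq]
    simp only [expect_pair]
    rw [← move4]
    have e2 : ∀ b : G, (𝔼 x, 𝔼 x', 𝔼 u, 𝔼 v, 𝔼 b',
        (f0 (x + b) (u + b) * conj (f0 (x' + b) (u + b)) *
          conj (f0 (x + b) (v + b)) * f0 (x' + b) (v + b)) *
        conj (f0 (x + b') (u + b') * conj (f0 (x' + b') (u + b')) *
          conj (f0 (x + b') (v + b')) * f0 (x' + b') (v + b'))) =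
        𝔼 x, 𝔼 x', 𝔼 u, 𝔼 v, 𝔼 o, Q8 f0 x x' u v o := by
      intro b
      rw [← trR4 b (fun x x' u v => 𝔼 o, Q8 f0 x x' u v o)]
      refine Finset.expect_congr rfl fun x _ => ?_
      refine Finset.expect_congr rfl fun x' _ => ?_
      refine Finset.expect_congr rfl fun u _ => ?_
      refine Finset.expect_congr rfl fun v _ => ?_
      rw [← trL b]
      refine Finset.expect_congr rfl fun o _ => ?_
      unfold Q8
      simp only [map_mul, Complex.conj_conj, add_assoc]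
      ring
    simp only [e2]
    rw [Finset.expect_const univ_nonempty]
  rw [key, Complex.norm_real, Real.norm_of_nonneg hU]

end Group

theorem gvn0 : T_GVN0 := by
  intro G _ _ _ f0 f1 f2 f3 h0 h1 h2 h3
  have a1 := step1 f0 f1 f2 f3 h1
  have a2 := step2 f0 f2 f3 h2
  have a3 := step3 f0 f3 h3
  have b1 := pow_le_pow_left₀ (by positivity) a1 2
  have b2 := pow_le_pow_left₀ (by positivity) (b1.trans a2) 2
  refine le_trans (le_of_eq ?_) (b2.trans a3)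
  ring

end Pool.Agent.H50.SQ
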